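import Pool.Agent.Y386.IR.Stm

/-!
Project IR of helper386 (MP_b9c7f5_lc): upper bound for the imperfection ratio of `C5[G]`
(helper41).
-/

set_option autoImplicit false

namespace Pool.Agent.Y41.IR

open Pool.Agent.H692R2 Finset Pool.Agent.Y386.IR

variable {V : Type} [Fintype V]

theorem fracCol_nonneg {H : SimpleGraph V} {s : ℝ} (h : FracCol H s) : 0 ≤ s := by
  obtain ⟨w, h0, _, _, rfl⟩ := h
  exact Finset.sum_nonneg fun I _ => h0 I

theorem fracChi_nonneg (H : SimpleGraph V) : 0 ≤ fracChi H := by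
  rw [fracChi_eq]
  exact Real.sInf_nonneg fun s hs => fracCol_nonneg hs

theorem imp_nonneg (G : SimpleGraph V) : 0 ≤ imp G := by
  unfold imp
  refine Real.sSup_nonneg ?_
  rintro r ⟨x, _, rfl⟩
  exact div_nonneg (fracChi_nonneg _) (Nat.cast_nonneg _)

theorem clique_pos (G : SimpleGraph V) (x : V → ℕ) (hx : x ≠ 0) :
    0 < (replicated G x).cliqueNum := by
  obtain ⟨v, hv⟩ := Function.ne_iff.mp hx
  have h1 := sum_le_cliqueNum G x {v} (by simp)
  rw [Finset.sum_singleton] at h1
  exact lt_of_lt_of_le (Nat.pos_of_ne_zero hv) h1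

theorem exists_col (G : SimpleGraph V) (τ : ℝ) (hτ : imp G < τ) (x : V → ℕ) :
    ∃ s, FracCol (replicated G x) s ∧ s ≤ τ * ((replicated G x).cliqueNum : ℝ) := by
  have hτ0 : 0 ≤ τ := (imp_nonneg G).trans hτ.le
  by_cases hx : x = 0
  · subst hx
    refine ⟨0, ⟨fun _ => 0, fun _ => le_rfl, fun I h => absurd rfl h, ?_, by simp⟩,
      mul_nonneg hτ0 (Nat.cast_nonneg _)⟩
    rintro ⟨v, i⟩
    exact i.elim0
  · have h0 := clique_pos G x hx
    have h1 : fracChi (replicated G x) / (replicated G x).cliqueNum ≤ imp G :=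
      le_csSup (imp_bddAbove G) ⟨x, hx, rfl⟩
    have hW : (0 : ℝ) < (replicated G x).cliqueNum := by exact_mod_cast h0
    have h2 : fracChi (replicated G x) < τ * ((replicated G x).cliqueNum : ℝ) := by
      rw [← div_lt_iff₀ hW]
      exact lt_of_le_of_lt h1 hτ
    rw [fracChi_eq] at h2
    obtain ⟨s, hs, hlt⟩ := exists_lt_of_csInf_lt (fracChi_nonempty (replicated G x)) h2
    exact ⟨s, hs, hlt.le⟩

theorem t_UB : S_C5FAM → S_PROD → S_CLQ → S_UB := by
  intro hC5 hP hQ V _ G
  refine Real.sSup_le ?_ (mul_nonneg (by norm_num) (imp_nonneg G))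
  rintro r ⟨x, hx, rfl⟩
  have h0 := clique_pos (lex5 G) x hx
  have hW : (0 : ℝ) < (replicated (lex5 G) x).cliqueNum := by exact_mod_cast h0
  obtain ⟨J, hJ1, hJ2⟩ := hC5 (replicated (lex5 G) x).cliqueNum
    (fun i => (replicated G fun v => x (i, v)).cliqueNum) (fun i => hQ V G x i)
  have key : ∀ τ : ℝ, imp G < τ →
      fracChi (replicated (lex5 G) x) / (replicated (lex5 G) x).cliqueNum ≤ 5 / 4 * τ := by
    intro τ hτ
    have h1 := hP V (Fin (replicated (lex5 G) x).cliqueNum × Fin 5) G x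
      (fun i => (replicated G fun v => x (i, v)).cliqueNum) τ J
      ((imp_nonneg G).trans hτ.le) hJ1 hJ2 (fun i => exists_col G τ hτ fun v => x (i, v))
    rw [Fintype.card_prod, Fintype.card_fin, Fintype.card_fin] at h1
    rw [div_le_iff₀ hW]
    push_cast at h1
    linarith
  refine le_of_forall_pos_le_add fun ε hε => ?_
  have := key (imp G + 4 / 5 * ε) (by linarith)
  linarith

end Pool.Agent.Y41.IR
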