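import Pool.Agent.Y386.IR.Stm2
import Pool.Agent.Y41.IR.UB

/-!
Project IR of helper386 (MP_b9c7f5_lc): upper bound for the imperfection ratio of `K_{a/b}[G]`
(helper41).
-/

set_option autoImplicit false

namespace Pool.Agent.Y41.IR

open Pool.Agent.H692R2 Finset Pool.Agent.Y386.IR

theorem t_UB2 : S_FAM2 → S_PROD2 → S_CLQa → S_UB2 := by
  intro hF hP hQ V _ G a b hb hab
  have hb0 : (0 : ℝ) < b := by exact_mod_cast hb
  have ha0 : (0 : ℝ) < a := by exact_mod_cast (by omega : 0 < a)
  refine Real.sSup_le ?_ (mul_nonneg (by positivity) (imp_nonneg G))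
  rintro r ⟨x, hx, rfl⟩
  have h0 := clique_pos (lexK a b G) x hx
  have hW : (0 : ℝ) < (replicated (lexK a b G) x).cliqueNum := by exact_mod_cast h0
  obtain ⟨hQ1, hQ2⟩ := hQ V G a b x
  obtain ⟨J, hJ1, hJ2⟩ := hF a b (replicated (lexK a b G) x).cliqueNum
    (fun i => (replicated G fun v => x (i, v)).cliqueNum) hb hab hQ1 (fun i j hij => by
      refine hQ2 i j ?_ hij
      rintro rfl
      rcases hij with ⟨h1, _⟩ | ⟨h1, _⟩ <;> omega)
  have key : ∀ τ : ℝ, imp G < τ →
      fracChi (replicated (lexK a b G) x) / (replicated (lexK a b G) x).cliqueNum ≤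
        a / (2 * b) * τ := by
    intro τ hτ
    have h1 := hP V (Fin (replicated (lexK a b G) x).cliqueNum × Fin a) G a b x
      (fun i => (replicated G fun v => x (i, v)).cliqueNum) τ J hb
      ((imp_nonneg G).trans hτ.le) hJ1 hJ2 (fun i => exists_col G τ hτ fun v => x (i, v))
    rw [Fintype.card_prod, Fintype.card_fin, Fintype.card_fin] at h1
    rw [div_le_iff₀ hW]
    push_cast at h1
    calc fracChi (replicated (lexK a b G) x)
        ≤ ((replicated (lexK a b G) x).cliqueNum : ℝ) * a * τ / (2 * b) := h1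
      _ = a / (2 * b) * τ * ((replicated (lexK a b G) x).cliqueNum : ℝ) := by ring
  refine le_of_forall_pos_le_add fun ε hε => ?_
  have h2 := key (imp G + 2 * b / a * ε) (by
    have : 0 < 2 * b / a * ε := by positivity
    linarith)
  have h3 : a / (2 * b) * (imp G + 2 * b / a * ε) = a / (2 * b) * imp G + ε := by
    field_simp
  rw [h3] at h2
  exact h2

end Pool.Agent.Y41.IR
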